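import Mathlib

set_option autoImplicit false

/-!
Following a list of straight pieces: the induction for an arbitrary map (project FD of helper685, part 7).
-/

namespace Pool.Agent.N368.FD

open Finset Filter

/-- a straight piece of trajectory -/
def SpT (T : ℤ → ℤ) (a D : ℝ) (k : ℕ) (n : ℤ) : Prop :=
  ∀ j ≤ k, 1 ≤ T^[j] n ∧ |Real.log (T^[j] n : ℤ) - (Real.log n - a * j)| ≤ D

/-- trajectories which consist of straight pieces -/
def FolT (T : ℤ → ℤ) (δ X : ℝ) : List (ℝ × ℝ) → ℝ → ℤ → Prop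
  | [], u, n => 1 ≤ n ∧ |Real.log n - u * X| ≤ δ * X
  | q :: L, u, n => ∃ k : ℕ, q.2 * X ≤ k ∧ (k : ℝ) ≤ (q.2 + δ) * X ∧ SpT T q.1 (δ * X) k n ∧
      FolT T δ X L (u - q.1 * q.2) (T^[k] n)

/-- many straight pieces into every large integer -/
def PclT (T : ℤ → ℤ) (p : ℕ) (φ : ℝ → ℝ) (a τ : ℝ) : Prop := ∀ δ : ℝ, 0 < δ → ∀ v : ℝ, 0 < v →
    ∃ X₀ : ℝ, 1 ≤ X₀ ∧ ∀ X : ℝ, X₀ ≤ X → ∀ b : ℤ, Real.exp (v * X) ≤ b → ¬ (p : ℤ) ∣ b →
      ∃ G : Finset ℤ, Real.exp ((τ * φ a - δ) * X) ≤ (G.card : ℝ) ∧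
        ∀ n ∈ G, 1 ≤ n ∧ ¬ (p : ℤ) ∣ n ∧ ∃ k : ℕ, τ * X ≤ k ∧ (k : ℝ) ≤ (τ + δ) * X ∧
          T^[k] n = b ∧ SpT T a (δ * X) k n

theorem SpT.mono {T : ℤ → ℤ} {a D D' : ℝ} {k : ℕ} {n : ℤ} (h : SpT T a D k n) (hD : D ≤ D') : SpT T a D' k n :=
  fun j hj => ⟨(h j hj).1, (h j hj).2.trans hD⟩

/-- the final interval -/
theorem base (p : ℕ) (hp : 2 ≤ p) (u : ℝ) (hu : 0 ≤ u) (δ : ℝ) (hδ : 0 < δ) (ε : ℝ) (hε : 0 < ε) :
    ∃ X₀ : ℝ, 1 ≤ X₀ ∧ ∀ X : ℝ, X₀ ≤ X → ∃ F : Finset ℤ,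
      (∀ n ∈ F, (1 ≤ n ∧ |Real.log n - u * X| ≤ δ * X) ∧ ¬ (p : ℤ) ∣ n ∧ Real.exp (δ / 4 * X) ≤ n) ∧
      Real.exp ((u - ε) * X) ≤ (F.card : ℝ) := by
  have hp0 : (0 : ℝ) < p := by positivity
  -- the threshold
  obtain ⟨X₀, hX₀⟩ : ∃ X₀ : ℝ, X₀ = 1 + 4 * Real.log 2 / δ + 2 / δ * Real.log (6 * p) := ⟨_, rfl⟩
  have hl2 : 0 < Real.log 2 := Real.log_pos (by norm_num)
  have hl6 : 0 < Real.log (6 * p) := Real.log_pos (by
    have : (2 : ℝ) ≤ p := by exact_mod_cast hp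
    linarith)
  refine ⟨X₀, ?_, fun X hX => ?_⟩
  · rw [hX₀]
    have : 0 ≤ 4 * Real.log 2 / δ := by positivity
    have : 0 ≤ 2 / δ * Real.log (6 * p) := by positivity
    linarith
  have h1 : 4 * Real.log 2 / δ ≤ X := by
    have : 0 ≤ 2 / δ * Real.log (6 * p) := by positivity
    linarith
  have h2 : 2 / δ * Real.log (6 * p) ≤ X := by
    have : 0 ≤ 4 * Real.log 2 / δ := by positivity
    linarith
  have hX1 : 1 ≤ X := by
    have : 0 ≤ 4 * Real.log 2 / δ := by positivity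
    have : 0 ≤ 2 / δ * Real.log (6 * p) := by positivity
    linarith
  have hX0 : 0 < X := by linarith
  have h3 : Real.log 2 ≤ δ / 4 * X := by
    rw [div_le_iff₀ hδ] at h1
    linarith
  have h4 : Real.log (6 * p) ≤ δ / 2 * X := by
    have h5 : δ / 2 * (2 / δ * Real.log (6 * p)) ≤ δ / 2 * X := mul_le_mul_of_nonneg_left h2 (by positivity)
    have h6 : δ / 2 * (2 / δ * Real.log (6 * p)) = Real.log (6 * p) := by field_simp
    linarith
  obtain ⟨Y, hY⟩ : ∃ Y : ℝ, Y = Real.exp ((u + δ / 2) * X) := ⟨_, rfl⟩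
  have hYpos : 0 < Y := by rw [hY]; exact Real.exp_pos _
  have hYu : 6 * p * Real.exp (u * X) ≤ Y := by
    have e1 : 6 * (p : ℝ) ≤ Real.exp (δ / 2 * X) := by
      rw [← Real.log_le_iff_le_exp (by positivity)]
      exact h4
    rw [hY, show (u + δ / 2) * X = δ / 2 * X + u * X by ring, Real.exp_add]
    exact mul_le_mul_of_nonneg_right e1 (Real.exp_pos _).le
  have hE1 : 1 ≤ Real.exp (u * X) := Real.one_le_exp (by positivity)
  -- the integers n = p i + 1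
  obtain ⟨a, ha⟩ : ∃ a : ℤ, a = ⌈(Y / 2 - 1) / p⌉ := ⟨_, rfl⟩
  obtain ⟨b, hb⟩ : ∃ b : ℤ, b = ⌊(Y - 1) / p⌋ := ⟨_, rfl⟩
  refine ⟨(Icc a b).image (fun i : ℤ => (p : ℤ) * i + 1), ?_, ?_⟩
  · intro n hn
    rw [mem_image] at hn
    obtain ⟨i, hi, rfl⟩ := hn
    rw [mem_Icc, ha, hb] at hi
    have i1 : (Y / 2 - 1) / p ≤ i := Int.ceil_le.1 hi.1
    have i2 : (i : ℝ) ≤ (Y - 1) / p := Int.le_floor.1 hi.2
    rw [div_le_iff₀ hp0] at i1
    rw [le_div_iff₀ hp0] at i2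
    have hn1 : Y / 2 ≤ (((p : ℤ) * i + 1 : ℤ) : ℝ) := by
      push_cast
      linarith
    have hn2 : (((p : ℤ) * i + 1 : ℤ) : ℝ) ≤ Y := by
      push_cast
      linarith
    have hnpos : (0 : ℝ) < (((p : ℤ) * i + 1 : ℤ) : ℝ) := by linarith
    have l1 : Real.log Y = (u + δ / 2) * X := by rw [hY, Real.log_exp]
    have l2 : Real.log (((p : ℤ) * i + 1 : ℤ) : ℝ) ≤ (u + δ / 2) * X := by
      rw [← l1]
      exact Real.log_le_log hnpos hn2
    have l3 : (u + δ / 2) * X - Real.log 2 ≤ Real.log (((p : ℤ) * i + 1 : ℤ) : ℝ) := by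
      rw [← l1, ← Real.log_div hYpos.ne' (by norm_num)]
      exact Real.log_le_log (by positivity) hn1
    refine ⟨⟨?_, ?_⟩, ?_, ?_⟩
    · have : (0 : ℤ) < (p : ℤ) * i + 1 := by exact_mod_cast hnpos
      linarith
    · rw [abs_le]
      constructor <;> nlinarith
    · intro hd
      have hd1 : (p : ℤ) ∣ 1 := (Int.dvd_add_right (dvd_mul_right _ _)).1 hd
      have := Int.le_of_dvd one_pos hd1
      omega
    · rw [← Real.le_log_iff_exp_le hnpos]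
      nlinarith
  · rw [card_image_of_injective _ (by
      intro i j hij
      have hp' : (p : ℤ) ≠ 0 := by
        have : 0 < p := by omega
        exact_mod_cast this.ne'
      have : (p : ℤ) * i = (p : ℤ) * j := by simpa using hij
      exact mul_left_cancel₀ hp' this), Int.card_Icc]
    have e1 : ((b + 1 - a : ℤ) : ℝ) ≤ (((b + 1 - a).toNat : ℕ) : ℝ) := by
      have := Int.self_le_toNat (b + 1 - a)
      exact_mod_cast this
    refine le_trans ?_ e1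
    have e2 : (Y - 1) / p - 1 < b := by rw [hb]; exact Int.sub_one_lt_floor _
    have e3 : (a : ℝ) < (Y / 2 - 1) / p + 1 := by rw [ha]; exact Int.ceil_lt_add_one _
    have e4 : (Y - 1) / p - (Y / 2 - 1) / p = Y / (2 * p) := by field_simp; ring
    have e5 : Y / (2 * p) - 1 ≤ ((b + 1 - a : ℤ) : ℝ) := by
      push_cast
      linarith
    have e6 : 3 * Real.exp (u * X) ≤ Y / (2 * p) := by
      rw [le_div_iff₀ (by positivity)]
      linarith
    have e7 : Real.exp ((u - ε) * X) ≤ Real.exp (u * X) := Real.exp_le_exp.2 (by nlinarith)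
    linarith

open Classical in
/-- double counting -/
theorem count {B : Finset ℤ} {G : ℤ → Finset ℤ} {T : ℤ → ℤ} {x y g : ℝ} (hx : 0 ≤ x) (hxy : x ≤ y) (hg : ∀ b ∈ B, g ≤ ((G b).card : ℝ))
    (h : ∀ b ∈ B, ∀ n ∈ G b, ∃ k : ℕ, x ≤ k ∧ (k : ℝ) ≤ y ∧ T^[k] n = b) :
    (B.card : ℝ) * g ≤ ((B.biUnion G).card : ℝ) * (y - x + 2) := by
  have h1 : ∑ b ∈ B, ((G b).card : ℝ) = ∑ n ∈ B.biUnion G, ((B.filter (fun b => n ∈ G b)).card : ℝ) := by
    have h2 : ∀ b ∈ B, ((G b).card : ℝ) = ∑ n ∈ B.biUnion G, (if n ∈ G b then (1 : ℝ) else 0) := by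
      intro b hb
      rw [sum_boole]
      congr 2
      ext n
      rw [mem_filter, mem_biUnion]
      exact ⟨fun h => ⟨⟨b, hb, h⟩, h⟩, fun h => h.2⟩
    rw [sum_congr rfl h2, sum_comm]
    refine sum_congr rfl fun n _ => ?_
    rw [sum_boole]
  have h3 : ∀ n ∈ B.biUnion G, ((B.filter (fun b => n ∈ G b)).card : ℝ) ≤ y - x + 2 := by
    intro n _
    have h4 : B.filter (fun b => n ∈ G b) ⊆ (Icc ⌈x⌉₊ ⌊y⌋₊).image (fun k => T^[k] n) := by
      intro b hb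
      rw [mem_filter] at hb
      obtain ⟨k, k1, k2, k3⟩ := h b hb.1 n hb.2
      rw [mem_image]
      refine ⟨k, ?_, k3⟩
      rw [mem_Icc]
      exact ⟨Nat.ceil_le.2 k1, Nat.le_floor k2⟩
    have h5 : ((B.filter (fun b => n ∈ G b)).card : ℝ) ≤ ((Icc ⌈x⌉₊ ⌊y⌋₊).card : ℝ) :=
      Nat.cast_le.2 ((card_le_card h4).trans card_image_le)
    refine h5.trans ?_
    rw [Nat.card_Icc]
    have h6 : (⌊y⌋₊ : ℝ) ≤ y := Nat.floor_le (hx.trans hxy)
    have h7 : x ≤ (⌈x⌉₊ : ℝ) := Nat.le_ceil x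
    have h8 : ((⌊y⌋₊ + 1 - ⌈x⌉₊ : ℕ) : ℝ) ≤ ⌊y⌋₊ + 1 - ⌈x⌉₊ ∨ ((⌊y⌋₊ + 1 - ⌈x⌉₊ : ℕ) : ℝ) = 0 := by
      rcases le_or_gt ⌈x⌉₊ (⌊y⌋₊ + 1) with hle | hlt
      · left
        rw [Nat.cast_sub hle]
        push_cast
        exact le_rfl
      · right
        rw [Nat.sub_eq_zero_of_le hlt.le, Nat.cast_zero]
    rcases h8 with h8 | h8 <;> linarith
  calc (B.card : ℝ) * g = ∑ _b ∈ B, g := by rw [sum_const, nsmul_eq_mul]
    _ ≤ ∑ b ∈ B, ((G b).card : ℝ) := sum_le_sum hg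
    _ = ∑ n ∈ B.biUnion G, ((B.filter (fun b => n ∈ G b)).card : ℝ) := h1
    _ ≤ ∑ _n ∈ B.biUnion G, (y - x + 2) := sum_le_sum h3
    _ = _ := by rw [sum_const, nsmul_eq_mul]

theorem foll (T : ℤ → ℤ) (p : ℕ) (hp : 2 ≤ p) (φ : ℝ → ℝ) (δ : ℝ) (hδ : 0 < δ) (L : List (ℝ × ℝ)) :
    (∀ q ∈ L, 0 < q.1 ∧ 0 < q.2 ∧ PclT T p φ q.1 q.2) →
    ∀ u : ℝ, (L.map fun q => q.1 * q.2).sum ≤ u → ∀ ε : ℝ, 0 < ε →
    ∃ v : ℝ, 0 < v ∧ ∃ X₀ : ℝ, 1 ≤ X₀ ∧ ∀ X : ℝ, X₀ ≤ X → ∃ F : Finset ℤ,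
      (∀ n ∈ F, FolT T δ X L u n ∧ ¬ (p : ℤ) ∣ n ∧ Real.exp (v * X) ≤ n) ∧
      Real.exp ((u - (L.map fun q => q.1 * q.2).sum + (L.map fun q => q.2 * φ q.1).sum - ε) * X) ≤ (F.card : ℝ) := by
  classical
  induction L with
  | nil =>
    intro _ u hu ε hε
    rw [List.map_nil, List.sum_nil] at hu
    obtain ⟨X₀, h1, h2⟩ := base p hp u hu δ hδ ε hε
    refine ⟨δ / 4, by positivity, X₀, h1, fun X hX => ?_⟩
    obtain ⟨F, hF1, hF2⟩ := h2 X hX
    refine ⟨F, fun n hn => ⟨(hF1 n hn).1, (hF1 n hn).2.1, (hF1 n hn).2.2⟩, ?_⟩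
    simpa using hF2
  | cons q L ih =>
    intro hL u hu ε hε
    rw [List.map_cons, List.sum_cons] at hu
    obtain ⟨hq1, hq2, hP⟩ := hL q List.mem_cons_self
    obtain ⟨v, hv, X₁, hX₁, H₁⟩ := ih (fun q' hq' => hL q' (List.mem_cons_of_mem _ hq')) (u - q.1 * q.2) (by linarith)
      (ε / 3) (by positivity)
    obtain ⟨δ', hδ'⟩ : ∃ δ' : ℝ, δ' = min δ (min (ε / 3) (q.1 * q.2)) := ⟨_, rfl⟩
    have hδ'0 : 0 < δ' := by
      rw [hδ']
      exact lt_min hδ (lt_min (by positivity) (by positivity))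
    have hδ'1 : δ' ≤ δ := by rw [hδ']; exact min_le_left _ _
    have hδ'2 : δ' ≤ ε / 3 := by rw [hδ']; exact (min_le_right _ _).trans (min_le_left _ _)
    have hδ'3 : δ' ≤ q.1 * q.2 := by rw [hδ']; exact (min_le_right _ _).trans (min_le_right _ _)
    obtain ⟨X₂, hX₂, H₂⟩ := hP δ' hδ'0 v hv
    -- the threshold for the number of the times
    have hev : ∀ᶠ X : ℝ in atTop, δ' * X + 2 ≤ Real.exp (ε / 3 * X) := by
      have h1 : Tendsto (fun X : ℝ => Real.exp (ε / 3 * X) / (ε / 3 * X)) atTop atTop := by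
        have h2 := Real.tendsto_exp_div_pow_atTop 1
        simp only [pow_one] at h2
        exact h2.comp (tendsto_id.const_mul_atTop (by positivity : (0 : ℝ) < ε / 3))
      filter_upwards [h1.eventually_ge_atTop (1 + 6 / ε), eventually_ge_atTop (1 : ℝ)] with X h3 h4
      have hX0 : 0 < ε / 3 * X := by positivity
      rw [le_div_iff₀ hX0] at h3
      have h5 : (1 + 6 / ε) * (ε / 3 * X) = ε / 3 * X + 2 * X := by field_simp; ring
      rw [h5] at h3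
      have h6 : δ' * X ≤ ε / 3 * X := mul_le_mul_of_nonneg_right hδ'2 (by linarith)
      linarith
    obtain ⟨X₃, hX₃⟩ := eventually_atTop.1 hev
    refine ⟨v, hv, max X₁ (max X₂ X₃), hX₁.trans (le_max_left _ _), fun X hX => ?_⟩
    have hXa : X₁ ≤ X := (le_max_left _ _).trans hX
    have hXb : X₂ ≤ X := (le_max_left _ _).trans ((le_max_right _ _).trans hX)
    have hXc : X₃ ≤ X := (le_max_right _ _).trans ((le_max_right _ _).trans hX)
    have hX1 : 1 ≤ X := hX₁.trans hXa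
    have hX0 : 0 < X := by linarith
    obtain ⟨B, hB1, hB2⟩ := H₁ X hXa
    have hG : ∀ b : ℤ, ∃ G : Finset ℤ, b ∈ B → Real.exp ((q.2 * φ q.1 - δ') * X) ≤ (G.card : ℝ) ∧
        ∀ n ∈ G, 1 ≤ n ∧ ¬ (p : ℤ) ∣ n ∧ ∃ k : ℕ, q.2 * X ≤ k ∧ (k : ℝ) ≤ (q.2 + δ') * X ∧
          T^[k] n = b ∧ SpT T q.1 (δ' * X) k n := by
      intro b
      by_cases hb : b ∈ B
      · obtain ⟨G, hG⟩ := H₂ X hXb b (hB1 b hb).2.2 (hB1 b hb).2.1
        exact ⟨G, fun _ => hG⟩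
      · exact ⟨∅, fun h => absurd h hb⟩
    choose G hG using hG
    refine ⟨B.biUnion G, ?_, ?_⟩
    · intro n hn
      rw [mem_biUnion] at hn
      obtain ⟨b, hb, hnb⟩ := hn
      obtain ⟨hn1, hnp, k, k1, k2, k3, k4⟩ := (hG b hb).2 n hnb
      obtain ⟨hb1, hb2, hb3⟩ := hB1 b hb
      refine ⟨⟨k, k1, k2.trans ?_, k4.mono ?_, ?_⟩, hnp, ?_⟩
      · exact mul_le_mul_of_nonneg_right (by linarith) hX0.le
      · exact mul_le_mul_of_nonneg_right hδ'1 hX0.le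
      · rw [k3]
        exact hb1
      · have h5 := (k4 k le_rfl).2
        rw [k3] at h5
        have hbpos : (0 : ℝ) < b := (Real.exp_pos _).trans_le hb3
        have hnpos : (0 : ℝ) < n := by
          have : (0 : ℤ) < n := by linarith
          exact_mod_cast this
        rw [← Real.le_log_iff_exp_le hbpos] at hb3
        rw [← Real.le_log_iff_exp_le hnpos]
        have h6 := (abs_le.1 h5).2
        have h7 : q.1 * (q.2 * X) ≤ q.1 * k := mul_le_mul_of_nonneg_left k1 hq1.le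
        have h8 : δ' * X ≤ q.1 * q.2 * X := mul_le_mul_of_nonneg_right hδ'3 hX0.le
        linarith
    · have hc := count (B := B) (G := G) (T := T) (x := q.2 * X) (y := (q.2 + δ') * X)
        (g := Real.exp ((q.2 * φ q.1 - δ') * X)) (by positivity) (by nlinarith) (fun b hb => (hG b hb).1) (by
          intro b hb n hn
          obtain ⟨-, -, k, k1, k2, k3, -⟩ := (hG b hb).2 n hn
          exact ⟨k, k1, k2, k3⟩)
      have h3 := hX₃ X hXc
      have h4 : (q.2 + δ') * X - q.2 * X + 2 ≤ Real.exp (ε / 3 * X) := by linarith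
      have h5 : (B.card : ℝ) * Real.exp ((q.2 * φ q.1 - δ') * X) ≤
          ((B.biUnion G).card : ℝ) * Real.exp (ε / 3 * X) :=
        hc.trans (mul_le_mul_of_nonneg_left h4 (Nat.cast_nonneg _))
      have h6 : Real.exp ((u - q.1 * q.2 - (L.map fun q => q.1 * q.2).sum + (L.map fun q => q.2 * φ q.1).sum - ε / 3) * X) *
          Real.exp ((q.2 * φ q.1 - δ') * X) ≤ ((B.biUnion G).card : ℝ) * Real.exp (ε / 3 * X) :=
        (mul_le_mul_of_nonneg_right hB2 (Real.exp_pos _).le).trans h5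
      rw [← Real.exp_add] at h6
      rw [List.map_cons, List.sum_cons, List.map_cons, List.sum_cons]
      have h7 : Real.exp ((u - (q.1 * q.2 + (L.map fun q => q.1 * q.2).sum) +
          (q.2 * φ q.1 + (L.map fun q => q.2 * φ q.1).sum) - ε) * X) * Real.exp (ε / 3 * X) ≤
          ((B.biUnion G).card : ℝ) * Real.exp (ε / 3 * X) := by
        refine le_trans ?_ h6
        rw [← Real.exp_add]
        apply Real.exp_le_exp.2
        nlinarith
      exact le_of_mul_le_mul_right h7 (Real.exp_pos _)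

end Pool.Agent.N368.FD
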